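import Pool.Agent.H927.QP.St

/-!
# PSig4, part Phi: from the relations for three indices to McCool's relations for `n ≥ 4` indices
(helper828, for helper927)
-/

set_option autoImplicit false
set_option linter.unusedSimpArgs false

open scoped TensorProduct commutatorElement

noncomputable section

namespace Pool.Agent.H927.QP.Part_Phi

open Pool.Agent.H297.QL (Gr gam cl gbr comp hc LV inc lift)

attribute [local instance 100] LieRing.ofAssociativeRing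

variable {N : Type} [LieRing N]

/-- the elements for four indices -/
def P4 (c : Fin 3 → Fin 3 → N) (ζ : Fin 3 → N) : Fin 4 → Fin 4 → N
  | 0, 0 => 0
  | 0, 1 => c 0 1
  | 0, 2 => c 0 2
  | 0, 3 => ζ 0
  | 1, 0 => c 1 0
  | 1, 1 => 0
  | 1, 2 => c 1 2
  | 1, 3 => ζ 1
  | 2, 0 => c 2 0
  | 2, 1 => c 2 1
  | 2, 2 => 0
  | 2, 3 => ζ 2
  | 3, 0 => -(c 1 0 + c 2 0)
  | 3, 1 => -(c 0 1 + c 2 1)
  | 3, 2 => -(c 0 2 + c 1 2)
  | 3, 3 => 0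

theorem four (c : Fin 3 → Fin 3 → N) (ζ : Fin 3 → N)
    (h1 : ∀ k m j : Fin 3, k ≠ m → k ≠ j → m ≠ j → ⁅c k j, c m j⁆ = 0)
    (h2 : ∀ i j k : Fin 3, i ≠ j → i ≠ k → j ≠ k → ⁅c i j + c k j, c i k⁆ = 0)
    (h3 : ∀ k l m : Fin 3, k ≠ l → k ≠ m → l ≠ m → ⁅c k l, ζ m⁆ = 0)
    (h4 : ⁅ζ 0, ζ 1⁆ = 0) (h5 : ζ 0 + ζ 1 + ζ 2 = 0) :
    (∀ i j k : Fin 4, i ≠ j → i ≠ k → j ≠ k → ⁅P4 c ζ i j, P4 c ζ k j⁆ = 0) ∧
    (∀ i j k l : Fin 4, i ≠ j → i ≠ k → i ≠ l → j ≠ k → j ≠ l → k ≠ l →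
      ⁅P4 c ζ i j, P4 c ζ k l⁆ = 0) ∧
    (∀ i j k : Fin 4, i ≠ j → i ≠ k → j ≠ k →
      ⁅P4 c ζ i j + P4 c ζ k j, P4 c ζ i k⁆ = 0) := by
  -- brackets of the `ζ`
  have z2 : ζ 2 = -(ζ 0 + ζ 1) := by
    rw [eq_neg_iff_add_eq_zero, add_comm]; exact h5
  have z01 : ⁅ζ 0, ζ 1⁆ = 0 := h4
  have z10 : ⁅ζ 1, ζ 0⁆ = 0 := by rw [← lie_skew, h4, neg_zero]
  have z02 : ⁅ζ 0, ζ 2⁆ = 0 := by rw [z2]; simp [z01]
  have z20 : ⁅ζ 2, ζ 0⁆ = 0 := by rw [← lie_skew, z02, neg_zero]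
  have z12 : ⁅ζ 1, ζ 2⁆ = 0 := by rw [z2]; simp [z10]
  have z21 : ⁅ζ 2, ζ 1⁆ = 0 := by rw [← lie_skew, z12, neg_zero]
  -- brackets with the same second index
  have a0 : ⁅c 1 0, c 2 0⁆ = 0 := h1 1 2 0 (by decide) (by decide) (by decide)
  have a0' : ⁅c 2 0, c 1 0⁆ = 0 := h1 2 1 0 (by decide) (by decide) (by decide)
  have a1 : ⁅c 0 1, c 2 1⁆ = 0 := h1 0 2 1 (by decide) (by decide) (by decide)
  have a1' : ⁅c 2 1, c 0 1⁆ = 0 := h1 2 0 1 (by decide) (by decide) (by decide)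
  have a2 : ⁅c 0 2, c 1 2⁆ = 0 := h1 0 1 2 (by decide) (by decide) (by decide)
  have a2' : ⁅c 1 2, c 0 2⁆ = 0 := h1 1 0 2 (by decide) (by decide) (by decide)
  -- brackets with `ζ`
  have b0 : ⁅c 1 2, ζ 0⁆ = 0 := h3 1 2 0 (by decide) (by decide) (by decide)
  have b0' : ⁅c 2 1, ζ 0⁆ = 0 := h3 2 1 0 (by decide) (by decide) (by decide)
  have b1 : ⁅c 0 2, ζ 1⁆ = 0 := h3 0 2 1 (by decide) (by decide) (by decide)
  have b1' : ⁅c 2 0, ζ 1⁆ = 0 := h3 2 0 1 (by decide) (by decide) (by decide)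
  have b2 : ⁅c 0 1, ζ 2⁆ = 0 := h3 0 1 2 (by decide) (by decide) (by decide)
  have b2' : ⁅c 1 0, ζ 2⁆ = 0 := h3 1 0 2 (by decide) (by decide) (by decide)
  have d0 : ⁅ζ 0, c 1 2⁆ = 0 := by rw [← lie_skew, b0, neg_zero]
  have d0' : ⁅ζ 0, c 2 1⁆ = 0 := by rw [← lie_skew, b0', neg_zero]
  have d1 : ⁅ζ 1, c 0 2⁆ = 0 := by rw [← lie_skew, b1, neg_zero]
  have d1' : ⁅ζ 1, c 2 0⁆ = 0 := by rw [← lie_skew, b1', neg_zero]
  have d2 : ⁅ζ 2, c 0 1⁆ = 0 := by rw [← lie_skew, b2, neg_zero]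
  have d2' : ⁅ζ 2, c 1 0⁆ = 0 := by rw [← lie_skew, b2', neg_zero]
  -- the other relations
  have key : ∀ i j k : Fin 3, i ≠ j → i ≠ k → j ≠ k → ⁅c k j, c i k⁆ = ⁅c i k, c i j⁆ := by
    intro i j k hij hik hjk
    have h := h2 i j k hij hik hjk
    rw [add_lie] at h
    rw [← lie_skew (c i k) (c i j)] 
    exact (neg_eq_of_add_eq_zero_right h).symm
  have key' : ∀ i j k : Fin 3, i ≠ j → i ≠ k → j ≠ k → ⁅c i k, c k j⁆ = -⁅c i k, c i j⁆ := by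
    intro i j k hij hik hjk
    rw [← key i j k hij hik hjk, lie_skew]
  have e0 : ⁅c 0 2, c 0 1⁆ = -⁅c 0 1, c 0 2⁆ := (lie_skew _ _).symm
  have e1 : ⁅c 1 2, c 1 0⁆ = -⁅c 1 0, c 1 2⁆ := (lie_skew _ _).symm
  have e2 : ⁅c 2 1, c 2 0⁆ = -⁅c 2 0, c 2 1⁆ := (lie_skew _ _).symm
  have k1 : ⁅c 2 1, c 0 2⁆ = -⁅c 0 1, c 0 2⁆ := by
    rw [key 0 1 2 (by decide) (by decide) (by decide), e0]
  have k2 : ⁅c 1 2, c 0 1⁆ = ⁅c 0 1, c 0 2⁆ := key 0 2 1 (by decide) (by decide) (by decide)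
  have k3 : ⁅c 2 0, c 1 2⁆ = -⁅c 1 0, c 1 2⁆ := by
    rw [key 1 0 2 (by decide) (by decide) (by decide), e1]
  have k4 : ⁅c 0 2, c 1 0⁆ = ⁅c 1 0, c 1 2⁆ := key 1 2 0 (by decide) (by decide) (by decide)
  have k5 : ⁅c 1 0, c 2 1⁆ = -⁅c 2 0, c 2 1⁆ := by
    rw [key 2 0 1 (by decide) (by decide) (by decide), e2]
  have k6 : ⁅c 0 1, c 2 0⁆ = ⁅c 2 0, c 2 1⁆ := key 2 1 0 (by decide) (by decide) (by decide)
  have m1 : ⁅c 0 2, c 2 1⁆ = ⁅c 0 1, c 0 2⁆ := by rw [← lie_skew, k1, neg_neg]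
  have m2 : ⁅c 0 1, c 1 2⁆ = -⁅c 0 1, c 0 2⁆ := by rw [← lie_skew, k2]
  have m3 : ⁅c 1 2, c 2 0⁆ = ⁅c 1 0, c 1 2⁆ := by rw [← lie_skew, k3, neg_neg]
  have m4 : ⁅c 1 0, c 0 2⁆ = -⁅c 1 0, c 1 2⁆ := by rw [← lie_skew, k4]
  have m5 : ⁅c 2 1, c 1 0⁆ = ⁅c 2 0, c 2 1⁆ := by rw [← lie_skew, k5, neg_neg]
  have m6 : ⁅c 2 0, c 0 1⁆ = -⁅c 2 0, c 2 1⁆ := by rw [← lie_skew, k6]
  -- expansion of `ζ 2`
  have f1 : ⁅c 0 1, ζ 1⁆ = -⁅c 0 1, ζ 0⁆ := by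
    have h := b2
    rw [z2, lie_neg, neg_eq_zero, lie_add] at h
    exact eq_neg_of_add_eq_zero_right h
  have f2 : ⁅c 1 0, ζ 1⁆ = -⁅c 1 0, ζ 0⁆ := by
    have h := b2'
    rw [z2, lie_neg, neg_eq_zero, lie_add] at h
    exact eq_neg_of_add_eq_zero_right h
  have f3 : ⁅c 0 2, ζ 2⁆ = -⁅c 0 2, ζ 0⁆ := by
    rw [z2, lie_neg, lie_add, b1, add_zero]
  have f4 : ⁅c 2 0, ζ 2⁆ = -⁅c 2 0, ζ 0⁆ := by
    rw [z2, lie_neg, lie_add, b1', add_zero]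
  have f5 : ⁅c 1 2, ζ 2⁆ = -⁅c 1 2, ζ 1⁆ := by
    rw [z2, lie_neg, lie_add, b0, zero_add]
  have f6 : ⁅c 2 1, ζ 2⁆ = -⁅c 2 1, ζ 1⁆ := by
    rw [z2, lie_neg, lie_add, b0', zero_add]
  have g : ∀ (i j m : Fin 3), ⁅ζ m, c i j⁆ = -⁅c i j, ζ m⁆ := fun i j m => (lie_skew _ _).symm
  refine ⟨?_, ?_, ?_⟩
  · intro i j k hij hik hjk
    fin_cases i <;> fin_cases j <;> fin_cases k <;>
      first
      | exact absurd rfl hij
      | exact absurd rfl hik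
      | exact absurd rfl hjk
      | (clear hij hik hjk; simp [-lie_skew, P4, z01, z10, z02, z20, z12, z21, a0, a0', a1, a1', a2, a2'])
  · intro i j k l hij hik hil hjk hjl hkl
    fin_cases i <;> fin_cases j <;> (try exact absurd rfl hij) <;> fin_cases k <;>
      (try exact absurd rfl hik) <;> (try exact absurd rfl hjk) <;> fin_cases l <;>
      first
      | exact absurd rfl hil
      | exact absurd rfl hjl
      | exact absurd rfl hkl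
      | (clear hij hik hil hjk hjl hkl; simp [-lie_skew, P4, b0, b0', b1, b1', b2, b2', d0, d0', d1, d1', d2, d2', e0, e1, e2,
          k1, k2, k3, k4, k5, k6, m1, m2, m3, m4, m5, m6])
  · intro i j k hij hik hjk
    fin_cases i <;> fin_cases j <;> fin_cases k <;>
      first
      | exact absurd rfl hij
      | exact absurd rfl hik
      | exact absurd rfl hjk
      | (clear hij hik hjk; simp [-lie_skew, P4, b0, b0', b1, b1', b2, b2', d0, d0', d1, d1', d2, d2', e0, e1, e2,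
          k1, k2, k3, k4, k5, k6, m1, m2, m3, m4, m5, m6, f1, f2, f3, f4, f5, f6, g, a0, a0', a1, a1', a2, a2'])

/-- the elements for `n` indices -/
def PN (c : Fin 3 → Fin 3 → N) (ζ : Fin 3 → N) {n : ℕ} (i j : Fin n) : N :=
  if h : i.val < 4 ∧ j.val < 4 then P4 c ζ ⟨i.val, h.1⟩ ⟨j.val, h.2⟩ else 0

theorem PN_pos (c : Fin 3 → Fin 3 → N) (ζ : Fin 3 → N) {n : ℕ} {i j : Fin n} (h : i.val < 4)
    (h' : j.val < 4) : PN c ζ i j = P4 c ζ ⟨i.val, h⟩ ⟨j.val, h'⟩ := by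
  unfold PN
  rw [dif_pos ⟨h, h'⟩]

theorem PN_neg (c : Fin 3 → Fin 3 → N) (ζ : Fin 3 → N) {n : ℕ} {i j : Fin n}
    (h : ¬ (i.val < 4 ∧ j.val < 4)) : PN c ζ i j = 0 := by
  unfold PN
  rw [dif_neg h]

theorem Phi_ext : S_Phi := by
  intro n hn N _ c ζ h1 h2 h3 h4 h5
  obtain ⟨q1, q2, q3⟩ := four c ζ h1 h2 h3 h4 h5
  have ne : ∀ (i j : Fin n) (hi : i.val < 4) (hj : j.val < 4), i ≠ j →
      (⟨i.val, hi⟩ : Fin 4) ≠ ⟨j.val, hj⟩ := fun i j hi hj hij h => by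
    apply hij
    have := congrArg Fin.val h
    exact Fin.ext this
  refine ⟨PN c ζ, ?_, ?_, ?_, ?_, ?_⟩
  · intro i j k hij hik hjk
    by_cases h : i.val < 4 ∧ j.val < 4
    · by_cases h' : k.val < 4 ∧ j.val < 4
      · rw [PN_pos c ζ h.1 h.2, PN_pos c ζ h'.1 h'.2]
        exact q1 _ _ _ (ne _ _ _ _ hij) (ne _ _ _ _ hik) (ne _ _ _ _ hjk)
      · rw [PN_neg c ζ h', lie_zero]
    · rw [PN_neg c ζ h, zero_lie]
  · intro i j k l hij hik hil hjk hjl hkl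
    by_cases h : i.val < 4 ∧ j.val < 4
    · by_cases h' : k.val < 4 ∧ l.val < 4
      · rw [PN_pos c ζ h.1 h.2, PN_pos c ζ h'.1 h'.2]
        exact q2 _ _ _ _ (ne _ _ _ _ hij) (ne _ _ _ _ hik) (ne _ _ _ _ hil) (ne _ _ _ _ hjk)
          (ne _ _ _ _ hjl) (ne _ _ _ _ hkl)
      · rw [PN_neg c ζ h', lie_zero]
    · rw [PN_neg c ζ h, zero_lie]
  · intro i j k hij hik hjk
    by_cases h' : i.val < 4 ∧ k.val < 4
    · by_cases hj : j.val < 4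
      · rw [PN_pos c ζ h'.1 h'.2, PN_pos c ζ h'.1 hj, PN_pos c ζ h'.2 hj]
        exact q3 _ _ _ (ne _ _ _ _ hij) (ne _ _ _ _ hik) (ne _ _ _ _ hjk)
      · rw [PN_neg c ζ (i := i) (j := j) (fun h => hj h.2),
          PN_neg c ζ (i := k) (j := j) (fun h => hj h.2), add_zero, zero_lie]
    · rw [PN_neg c ζ h', lie_zero]
  · intro k l hkl
    have hk : (Fin.castLE hn k.castSucc).val < 4 := by
      have := k.isLt; simp only [Fin.val_castLE, Fin.val_castSucc]; omega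
    have hl : (Fin.castLE hn l.castSucc).val < 4 := by
      have := l.isLt; simp only [Fin.val_castLE, Fin.val_castSucc]; omega
    rw [PN_pos c ζ hk hl]
    revert hkl
    fin_cases k <;> fin_cases l <;> intro hkl <;> first | exact absurd rfl hkl | rfl
  · intro k
    have hk : (Fin.castLE hn k.castSucc).val < 4 := by
      have := k.isLt; simp only [Fin.val_castLE, Fin.val_castSucc]; omega
    have hl : (Fin.castLE hn (Fin.last 3)).val < 4 := by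
      simp only [Fin.val_castLE, Fin.val_last]; omega
    rw [PN_pos c ζ hk hl]
    fin_cases k <;> rfl

end Pool.Agent.H927.QP.Part_Phi
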